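import Pool.Agent.helper22.EC.Defs
import Pool.Agent.helper22.EC.Red

/-!
# MP_00de39_al (project EC): module DC, direction calculus
-/

set_option autoImplicit false
set_option linter.unusedSectionVars false

namespace Pool.Agent.helper22.EC

open FreeGroup

section Letters

variable {α : Type} [DecidableEq α]

/-! ## Conjugation -/

theorem DC_mem_cj (K : Subgroup (FreeGroup α)) (g x : FreeGroup α) :
    x ∈ cj K g ↔ g * x * g⁻¹ ∈ K := by
  simp [cj, MulAut.conj_apply]

theorem cj_one (K : Subgroup (FreeGroup α)) : cj K 1 = K := by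
  ext x
  rw [DC_mem_cj]
  simp

theorem cj_cj (K : Subgroup (FreeGroup α)) (g h : FreeGroup α) :
    cj (cj K g) h = cj K (g * h) := by
  ext x
  rw [DC_mem_cj, DC_mem_cj, DC_mem_cj]
  have e : g * (h * x * h⁻¹) * g⁻¹ = g * h * x * (g * h)⁻¹ := by group
  rw [e]

theorem DC_cj_mul_left (K : Subgroup (FreeGroup α)) (k g : FreeGroup α) (hk : k ∈ K) :
    cj K (k * g) = cj K g := by
  ext x
  rw [DC_mem_cj, DC_mem_cj]
  have e : k * g * x * (k * g)⁻¹ = k * (g * x * g⁻¹) * k⁻¹ := by group
  rw [e]
  constructor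
  · intro h
    have := K.mul_mem (K.mul_mem (K.inv_mem hk) h) hk
    have e2 : k⁻¹ * (k * (g * x * g⁻¹) * k⁻¹) * k = g * x * g⁻¹ := by group
    rwa [e2] at this
  · intro h
    exact K.mul_mem (K.mul_mem hk h) (K.inv_mem hk)

theorem Dv_coe (H : Subgroup (FreeGroup α)) (g : FreeGroup α) :
    Dv H (g : FreeGroup α ⧸ H) = D (cj H g⁻¹) := by
  have : MulAction.stabilizer (FreeGroup α) (g : FreeGroup α ⧸ H) = cj H g⁻¹ := by
    ext x
    rw [DC_mem_cj, MulAction.mem_stabilizer_iff]
    show ((x * g : FreeGroup α) : FreeGroup α ⧸ H) = (g : FreeGroup α ⧸ H) ↔ _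
    rw [QuotientGroup.eq]
    have e : (x * g)⁻¹ * g = (g⁻¹ * x * g⁻¹⁻¹)⁻¹ := by group
    rw [e, H.inv_mem_iff]
  rw [Dv, this]

theorem D_mono {L H : Subgroup (FreeGroup α)} (h : L ≤ H) : D L ⊆ D H := by
  intro y hy
  exact hy.mono (Set.inter_subset_inter_left _ h)

/-! ## Letters and words -/

theorem DC_nb_nb (y : α × Bool) : nb (nb y) = y := by
  simp [nb]

theorem DC_nb_ne (y : α × Bool) : nb y ≠ y := by
  intro h
  have := congrArg Prod.snd h
  simp [nb] at this

theorem DC_lt_nb (y : α × Bool) : lt (nb y) = (lt y)⁻¹ := by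
  simp [lt, nb, inv_mk, invRev]

theorem DC_rel_iff (a b : α × Bool) : (a.1 = b.1 → a.2 = b.2) ↔ b ≠ nb a := by
  obtain ⟨a1, a2⟩ := a
  obtain ⟨b1, b2⟩ := b
  simp only [nb, ne_eq, Prod.mk.injEq, not_and]
  constructor
  · intro h h1 h2
    have := h h1.symm
    rw [this] at h2
    cases b2 <;> simp at h2
  · intro h h1
    have := h h1.symm
    cases a2 <;> cases b2 <;> simp_all

theorem DC_append {L₁ L₂ : List (α × Bool)} (h₁ : IsReduced L₁) (h₂ : IsReduced L₂)
    (h : ∀ a ∈ L₁.getLast?, ∀ b ∈ L₂.head?, b ≠ nb a) : IsReduced (L₁ ++ L₂) := by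
  rw [FreeGroup.IsReduced, List.isChain_append]
  exact ⟨h₁, h₂, fun a ha b hb => (DC_rel_iff a b).2 (h a ha b hb)⟩

theorem DC_append_ne {L₁ L₂ : List (α × Bool)} (h : IsReduced (L₁ ++ L₂)) {a b : α × Bool}
    (ha : a ∈ L₁.getLast?) (hb : b ∈ L₂.head?) : b ≠ nb a := by
  rw [FreeGroup.IsReduced, List.isChain_append] at h
  exact (DC_rel_iff a b).1 (h.2.2 a ha b hb)

theorem DC_toWord_mk {L : List (α × Bool)} (h : IsReduced L) : (mk L).toWord = L := by
  rw [toWord_mk, h.reduce_eq]

theorem DC_mem_U {y : α × Bool} {x : FreeGroup α} : x ∈ U y ↔ ∃ t, x.toWord = y :: t := by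
  simp only [U, Set.mem_setOf_eq]
  exact List.head?_eq_some_iff

theorem DC_mem_U' {y : α × Bool} {x : FreeGroup α} : x ∈ U y ↔ [y] <+: x.toWord := by
  rw [DC_mem_U]
  constructor
  · rintro ⟨t, h⟩
    exact ⟨t, by rw [h]; rfl⟩
  · rintro ⟨t, h⟩
    exact ⟨t, by rw [← h]; rfl⟩

/-- multiplication on the right by a letter destroys an initial part at most once -/
theorem DC_single (P : List (α × Bool)) (x : FreeGroup α) (z : α × Bool)
    (h : P <+: x.toWord) (hx : x ≠ mk P) : P <+: (x * lt z).toWord := by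
  obtain ⟨t, ht⟩ := h
  have hr : IsReduced (P ++ t) := by
    rw [ht]
    exact isReduced_toWord
  have hxe : x = mk (P ++ t) := by
    rw [ht, mk_toWord]
  rcases List.eq_nil_or_concat' t with h0 | ⟨t', w, hw⟩
  · exact absurd (by rw [hxe, h0, List.append_nil]) hx
  · subst hw
    by_cases hz : z = nb w
    · have e : x * lt z = mk (P ++ t') := by
        rw [hxe, hz, DC_lt_nb, ← List.append_assoc, ← mul_mk, lt, mul_assoc, mul_inv_cancel, mul_one]
      have hr' : IsReduced (P ++ t') := red_part hr ⟨[], [w], by simp⟩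
      rw [e, DC_toWord_mk hr']
      exact List.prefix_append _ _
    · have e : x * lt z = mk ((P ++ (t' ++ [w])) ++ [z]) := by
        rw [hxe, lt, mul_mk]
      have hr' : IsReduced ((P ++ (t' ++ [w])) ++ [z]) := by
        refine DC_append hr IsReduced.singleton ?_
        intro a ha b hb
        rw [← List.append_assoc, List.getLast?_concat] at ha
        simp only [Option.mem_def, Option.some.injEq, List.head?_cons] at ha hb
        subst ha hb
        exact hz
      rw [e, DC_toWord_mk hr', List.append_assoc]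
      exact List.prefix_append _ _

/-- multiplication on the right by a fixed element destroys an initial part only finitely often -/
theorem DC_right (P : List (α × Bool)) (L : List (α × Bool)) :
    {x : FreeGroup α | P <+: x.toWord ∧ ¬ P <+: (x * mk L).toWord}.Finite := by
  induction L with
  | nil =>
    convert Set.finite_empty (α := FreeGroup α)
    ext x
    simp only [Set.mem_setOf_eq, Set.mem_empty_iff_false, iff_false, not_and, not_not]
    intro h
    rw [← one_eq_mk, mul_one]
    exact h
  | cons z L ih =>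
    have hinj : Set.InjOn (fun x : FreeGroup α => x * lt z)
        ((fun x : FreeGroup α => x * lt z) ⁻¹'
          {x : FreeGroup α | P <+: x.toWord ∧ ¬ P <+: (x * mk L).toWord}) :=
      (mul_left_injective (lt z)).injOn
    refine ((Set.finite_singleton (mk P)).union (ih.preimage hinj)).subset ?_
    rintro x ⟨h1, h2⟩
    by_cases hx : x = mk P
    · exact Or.inl hx
    · right
      refine ⟨DC_single P x z h1 hx, ?_⟩
      rw [mul_assoc, lt, mul_mk]
      exact h2

theorem DC_right' (P : List (α × Bool)) (g : FreeGroup α) :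
    {x : FreeGroup α | P <+: x.toWord ∧ ¬ P <+: (x * g).toWord}.Finite := by
  have := DC_right P g.toWord
  rwa [mk_toWord] at this

/-- the main tool: infinitely many `x`, the initial part `P` survives in `u * x`, hence in `u * x * g` -/
theorem DC_transfer (P : List (α × Bool)) (S : Set (FreeGroup α)) (hS : S.Infinite)
    (u g : FreeGroup α) (h : ∀ x ∈ S, P <+: (u * x).toWord) :
    {x ∈ S | P <+: (u * x * g).toWord}.Infinite := by
  have hfin : {x ∈ S | ¬ P <+: (u * x * g).toWord}.Finite := by
    have hinj : Set.InjOn (fun x : FreeGroup α => u * x)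
        ((fun x : FreeGroup α => u * x) ⁻¹'
          {x : FreeGroup α | P <+: x.toWord ∧ ¬ P <+: (x * g).toWord}) :=
      (mul_right_injective u).injOn
    refine ((DC_right' P g).preimage hinj).subset ?_
    rintro x ⟨h1, h2⟩
    exact ⟨h x h1, h2⟩
  intro hfin'
  apply hS
  refine (hfin.union hfin').subset ?_
  intro x hx
  by_cases hp : P <+: (u * x * g).toWord
  · exact Or.inr ⟨hx, hp⟩
  · exact Or.inl ⟨hx, hp⟩

/-! ## Powers and non-triviality -/

theorem DC_base (K : Subgroup (FreeGroup α)) (w : FreeGroup α) (hw : w ∈ K) (h1 : w ≠ 1) :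
    ∃ g : FreeGroup α, FreeGroup.norm g ≤ FreeGroup.norm w ∧ (D (cj K g)).Nontrivial := by
  set p := reduceCyclically.conjugator w.toWord with hp
  set c := reduceCyclically w.toWord with hc
  have hpc : p ++ c ++ invRev p = w.toWord :=
    reduceCyclically.conj_conjugator_reduceCyclically w.toWord
  have hcr : IsCyclicallyReduced c := reduceCyclically.isCyclicallyReduced isReduced_toWord
  have hwe : w = mk p * mk c * (mk p)⁻¹ := by
    rw [inv_mk, mul_mk, mul_mk, hpc, mk_toWord]
  have hcn : c ≠ [] := by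
    intro h
    rw [h, ← one_eq_mk, mul_one, mul_inv_cancel] at hwe
    exact h1 hwe
  have hc1 : mk c ≠ (1 : FreeGroup α) := by
    intro h
    rw [h, mul_one, mul_inv_cancel] at hwe
    exact h1 hwe
  have hpow : ∀ n : ℕ, (mk c ^ n).toWord = (List.replicate n c).flatten := by
    intro n
    rw [pow_mk, DC_toWord_mk (hcr.flatten_replicate n).isReduced]
  have hmem : ∀ n : ℕ, mk c ^ n ∈ cj K (mk p) := by
    intro n
    rw [DC_mem_cj]
    have : mk p * mk c ^ n * (mk p)⁻¹ = w ^ n := by
      rw [hwe, conj_pow]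
    rw [this]
    exact K.pow_mem hw n
  have hinj : Function.Injective (fun n : ℕ => (mk c : FreeGroup α) ^ n) := by
    intro a b hab
    have := congrArg (fun x => x.toWord.length) hab
    simp only [hpow] at this
    simp only [List.length_flatten, List.map_replicate, List.sum_replicate, smul_eq_mul] at this
    have hl : 0 < c.length := List.length_pos_of_ne_nil hcn
    exact Nat.eq_of_mul_eq_mul_right hl this
  obtain ⟨y, c', hyc⟩ := List.exists_cons_of_ne_nil hcn
  obtain ⟨c'', z, hzc⟩ : ∃ l a, c = l ++ [a] := by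
    rcases List.eq_nil_or_concat' c with h | ⟨l, a, h⟩
    · exact absurd h hcn
    · exact ⟨l, a, h⟩
  have hne : y ≠ nb z := by
    have := hcr.2 z (by rw [hzc, List.getLast?_concat]; rfl) y (by rw [hyc]; rfl)
    exact (DC_rel_iff z y).1 this
  have hy : y ∈ D (cj K (mk p)) := by
    have hr : (Set.range (fun n : ℕ => (mk c : FreeGroup α) ^ (n + 1))).Infinite :=
      Set.infinite_range_of_injective (fun a b h => Nat.succ_injective (hinj h))
    refine hr.mono ?_
    rintro _ ⟨n, rfl⟩
    refine ⟨hmem _, ?_⟩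
    rw [DC_mem_U]
    refine ⟨c' ++ (List.replicate n c).flatten, ?_⟩
    show (mk c ^ (n + 1)).toWord = _
    rw [hpow, List.replicate_succ, List.flatten_cons]
    nth_rewrite 1 [hyc]
    rfl
  have hz : nb z ∈ D (cj K (mk p)) := by
    have hr : (Set.range (fun n : ℕ => ((mk c : FreeGroup α) ^ (n + 1))⁻¹)).Infinite :=
      Set.infinite_range_of_injective
        (fun a b h => Nat.succ_injective (hinj (inv_injective h)))
    refine hr.mono ?_
    rintro _ ⟨n, rfl⟩
    refine ⟨(cj K (mk p)).inv_mem (hmem _), ?_⟩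
    rw [DC_mem_U]
    refine ⟨invRev ((List.replicate n c).flatten ++ c''), ?_⟩
    show ((mk c ^ (n + 1))⁻¹).toWord = _
    rw [toWord_inv, hpow, List.replicate_succ', List.flatten_concat]
    nth_rewrite 2 [hzc]
    rw [← List.append_assoc, invRev_append]
    simp [invRev, nb]
  refine ⟨mk p, ?_, y, hy, nb z, hz, hne⟩
  refine le_trans norm_mk_le ?_
  rw [FreeGroup.norm, ← hpc]
  simp only [List.length_append]
  omega

theorem DC_exists_ne {K : Subgroup (FreeGroup α)} (h : K ≠ ⊥) : ∃ w ∈ K, w ≠ 1 := by
  by_contra hcon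
  push Not at hcon
  exact h ((Subgroup.eq_bot_iff_forall K).2 hcon)

theorem exists_base [Fintype α] (K : Subgroup (FreeGroup α)) (h : K ≠ ⊥) :
    ∃ g, (D (cj K g)).Nontrivial := by
  obtain ⟨w, hw, h1⟩ := DC_exists_ne h
  obtain ⟨g, _, hg⟩ := DC_base K w hw h1
  exact ⟨g, hg⟩

theorem base_point [Fintype α] (ws : List (FreeGroup α))
    (h : Subgroup.closure {g | g ∈ ws} ≠ ⊥) :
    ∃ g, FreeGroup.norm g ≤ (ws.map FreeGroup.norm).sum ∧ (D (cj (Subgroup.closure {g | g ∈ ws}) g)).Nontrivial := by
  have : ∃ w ∈ ws, w ≠ (1 : FreeGroup α) := by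
    by_contra hcon
    push Not at hcon
    apply h
    rw [Subgroup.closure_eq_bot_iff]
    intro w hw
    exact hcon w hw
  obtain ⟨w, hw, h1⟩ := this
  obtain ⟨g, hg1, hg2⟩ := DC_base (Subgroup.closure {g | g ∈ ws}) w (Subgroup.subset_closure hw) h1
  refine ⟨g, le_trans hg1 ?_, hg2⟩
  exact List.le_sum_of_mem (List.mem_map_of_mem hw)

theorem D_nonempty [Fintype α] (K : Subgroup (FreeGroup α)) (h : K ≠ ⊥) : (D K).Nonempty := by
  obtain ⟨w, hw, h1⟩ := DC_exists_ne h
  by_contra hcon
  rw [Set.not_nonempty_iff_eq_empty] at hcon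
  have hfin : ∀ y : α × Bool, ((K : Set (FreeGroup α)) ∩ U y).Finite := by
    intro y
    by_contra hy
    have : y ∈ D K := hy
    rw [hcon] at this
    exact this
  have hKfin : (K : Set (FreeGroup α)).Finite := by
    refine ((Set.finite_singleton 1).union (Set.finite_iUnion hfin)).subset ?_
    intro x hx
    by_cases hx1 : x = 1
    · exact Or.inl hx1
    · right
      rw [Set.mem_iUnion]
      have hne : x.toWord ≠ [] := fun h => hx1 (toWord_eq_nil_iff.1 h)
      obtain ⟨y, t, hyt⟩ := List.exists_cons_of_ne_nil hne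
      exact ⟨y, hx, DC_mem_U.2 ⟨t, hyt⟩⟩
  have hr : (Set.range (fun n : ℕ => w ^ n)).Infinite := by
    apply Set.infinite_range_of_injective
    have := (isOfFinOrder_iff_eq_one (a := w)).not.2 h1
    exact injective_pow_iff_not_isOfFinOrder.2 this
  apply hr
  refine hKfin.subset ?_
  rintro _ ⟨n, rfl⟩
  exact K.pow_mem hw n

/-! ## One step -/

theorem DC_cons {y : α × Bool} {x : FreeGroup α} (h : x ∉ U (nb y)) :
    (lt y * x).toWord = y :: x.toWord := by
  have hr : IsReduced ([y] ++ x.toWord) := by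
    refine DC_append IsReduced.singleton isReduced_toWord ?_
    intro a ha b hb
    simp only [List.getLast?_singleton, Option.mem_def, Option.some.injEq] at ha
    subst ha
    rintro rfl
    exact h hb
  have e : lt y * x = mk ([y] ++ x.toWord) := by
    rw [← mul_mk, mk_toWord, lt]
  rw [e, DC_toWord_mk hr]
  rfl

theorem DC_uncons {y : α × Bool} {x : FreeGroup α} (h : x ∈ U y) :
    (lt y)⁻¹ * x ∉ U (nb y) := by
  obtain ⟨t, ht⟩ := DC_mem_U.1 h
  have hr : IsReduced ([y] ++ t) := by
    have : IsReduced x.toWord := isReduced_toWord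
    rw [ht] at this
    exact this
  have ht' : IsReduced t := red_part hr ⟨[y], [], by simp⟩
  have e : (lt y)⁻¹ * x = mk t := by
    have : x = lt y * mk t := by
      rw [lt, mul_mk, List.singleton_append, ← ht, mk_toWord]
    rw [this]
    group
  rw [e]
  intro hm
  obtain ⟨s, hs⟩ := DC_mem_U.1 hm
  rw [DC_toWord_mk ht'] at hs
  exact DC_append_ne hr (a := y) (b := nb y) (by simp) (by rw [hs]; rfl) rfl

theorem D_step [Fintype α] (K : Subgroup (FreeGroup α)) (y : α × Bool) :
    y ∈ D K ↔ ∃ z, z ≠ nb y ∧ z ∈ D (cj K (lt y)) := by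
  constructor
  · intro hy
    by_contra hcon
    push Not at hcon
    have hfin : ∀ z : α × Bool,
        {x | x ∈ cj K (lt y) ∧ x ∈ U z ∧ z ≠ nb y}.Finite := by
      intro z
      by_cases hz : z = nb y
      · convert Set.finite_empty (α := FreeGroup α)
        ext x
        simp [hz]
      · have : ¬ ((cj K (lt y) : Set (FreeGroup α)) ∩ U z).Infinite := hcon z hz
        rw [Set.not_infinite] at this
        refine this.subset ?_
        rintro x ⟨h1, h2, _⟩
        exact ⟨h1, h2⟩
    have hinj : Set.InjOn (fun x : FreeGroup α => (lt y)⁻¹ * x * lt y)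
        ((fun x : FreeGroup α => (lt y)⁻¹ * x * lt y) ⁻¹'
          (⋃ z, {x | x ∈ cj K (lt y) ∧ x ∈ U z ∧ z ≠ nb y})) := by
      apply Function.Injective.injOn
      intro a b hab
      exact mul_left_cancel (mul_right_cancel hab)
    apply hy
    refine ((Set.finite_iUnion hfin).preimage hinj).subset ?_
    rintro x ⟨hxK, hxU⟩
    rw [Set.mem_preimage, Set.mem_iUnion]
    have hmem : (lt y)⁻¹ * x * lt y ∈ cj K (lt y) := by
      rw [DC_mem_cj]
      have e : lt y * ((lt y)⁻¹ * x * lt y) * (lt y)⁻¹ = x := by group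
      rw [e]
      exact hxK
    have hun := DC_uncons hxU
    set w := (lt y)⁻¹ * x with hw
    by_cases hw1 : w = 1
    · refine ⟨y, hmem, ?_, (DC_nb_ne y).symm⟩
      rw [hw1, one_mul, DC_mem_U]
      exact ⟨[], by rw [lt, DC_toWord_mk IsReduced.singleton]⟩
    · have hne : w.toWord ≠ [] := fun h => hw1 (toWord_eq_nil_iff.1 h)
      obtain ⟨z, t, hzt⟩ := List.exists_cons_of_ne_nil hne
      have hwz : w ∈ U z := DC_mem_U.2 ⟨t, hzt⟩
      have hzy : z ≠ nb y := by
        rintro rfl
        exact hun hwz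
      refine ⟨z, hmem, ?_, hzy⟩
      by_cases hwl : w = mk [z]
      · rw [hwl]
        have : lt y ∉ U (nb z) := by
          intro h
          obtain ⟨s, hs⟩ := DC_mem_U.1 h
          rw [lt, DC_toWord_mk IsReduced.singleton] at hs
          have : y = nb z := by
            injection hs
          apply hzy
          rw [this, DC_nb_nb]
        have := DC_cons this
        rw [DC_mem_U]
        exact ⟨_, this⟩
      · rw [DC_mem_U']
        exact DC_single [z] w y (DC_mem_U'.1 hwz) hwl
  · rintro ⟨z, hzy, hz⟩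
    have hinf : ((fun x : FreeGroup α => lt y * x * (lt y)⁻¹) ''
        ((cj K (lt y) : Set (FreeGroup α)) ∩ U z)).Infinite := by
      refine hz.image (Function.Injective.injOn ?_)
      intro a b hab
      exact mul_left_cancel (mul_right_cancel hab)
    refine hinf.mono ?_
    rintro _ ⟨x, ⟨hx1, hx2⟩, rfl⟩
    refine ⟨(DC_mem_cj K (lt y) x).1 hx1, ?_⟩
    have hnot : x ∉ U (nb y) := by
      intro h
      apply hzy
      have a := h
      have b := hx2
      simp only [U, Set.mem_setOf_eq] at a b
      rw [a] at b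
      injection b with b
      exact b.symm
    have hc := DC_cons hnot
    show lt y * x * (lt y)⁻¹ ∈ U y
    rw [DC_mem_U', ← DC_lt_nb]
    refine DC_single [y] (lt y * x) (nb y) ?_ ?_
    · rw [hc]
      exact ⟨x.toWord, rfl⟩
    · intro h
      have h2 := congrArg FreeGroup.toWord h
      rw [hc, DC_toWord_mk IsReduced.singleton] at h2
      have h3 : x.toWord = [] := by
        injection h2
      obtain ⟨s, hs⟩ := DC_mem_U.1 hx2
      rw [h3] at hs
      exact absurd hs (by simp)

/-! ## Hull -/

theorem DC_avoid {S : Set (α × Bool)} (hn : S.Nontrivial) (l : α × Bool) : ∃ y ∈ S, y ≠ l :=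
  hn.exists_ne l

theorem DC_hull (K : Subgroup (FreeGroup α)) (hn : (D K).Nontrivial) (k : FreeGroup α)
    (hk : k ∈ K) (p q : List (α × Bool)) (y : α × Bool) (h : k.toWord = p ++ y :: q) :
    y ∈ D (cj K (mk p)) := by
  have hr : IsReduced (p ++ y :: q) := by
    rw [← h]
    exact isReduced_toWord
  have hyq : IsReduced (y :: q) := red_part hr ⟨p, [], by simp⟩
  obtain ⟨l, hl⟩ : ∃ l, (y :: q).getLast? = some l :=
    ⟨_, List.getLast?_eq_some_getLast (List.cons_ne_nil y q)⟩
  obtain ⟨y', hy', hne⟩ := DC_avoid hn (nb l)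
  have hke : k = mk p * mk (y :: q) := by
    rw [mul_mk, ← h, mk_toWord]
  have hS := DC_transfer [y] ((K : Set (FreeGroup α)) ∩ U y') hy' (mk (y :: q)) (mk p) (by
    rintro x ⟨_, hx⟩
    have hr2 : IsReduced ((y :: q) ++ x.toWord) := by
      refine DC_append hyq isReduced_toWord ?_
      intro a ha b hb
      rw [hl] at ha
      simp only [Option.mem_def, Option.some.injEq] at ha
      subst ha
      have : x.toWord.head? = some y' := hx
      rw [this] at hb
      simp only [Option.mem_def, Option.some.injEq] at hb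
      rw [← hb]
      exact hne
    have e : mk (y :: q) * x = mk ((y :: q) ++ x.toWord) := by
      rw [← mul_mk, mk_toWord]
    rw [e, DC_toWord_mk hr2]
    exact ⟨q ++ x.toWord, rfl⟩)
  have himg := hS.image (f := fun x => mk (y :: q) * x * mk p) (Function.Injective.injOn (by
    intro a b hab
    exact mul_left_cancel (mul_right_cancel hab)))
  refine himg.mono ?_
  rintro _ ⟨x, ⟨⟨hxK, _⟩, hx2⟩, rfl⟩
  refine ⟨?_, DC_mem_U'.2 hx2⟩
  show mk (y :: q) * x * mk p ∈ cj K (mk p)
  rw [DC_mem_cj]
  have e : mk p * (mk (y :: q) * x * mk p) * (mk p)⁻¹ = k * x := by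
    rw [hke]
    group
  rw [e]
  exact K.mul_mem hk hxK

theorem hull_back (K : Subgroup (FreeGroup α)) (hn : (D K).Nontrivial) (k : FreeGroup α)
    (hk : k ∈ K) (p q : List (α × Bool)) (y : α × Bool) (h : k.toWord = p ++ y :: q) :
    nb y ∈ D (cj K (mk (p ++ [y]))) := by
  have h1 : (k⁻¹).toWord = invRev q ++ nb y :: invRev p := by
    rw [toWord_inv, h]
    simp [invRev, nb]
  have h2 := DC_hull K hn k⁻¹ (K.inv_mem hk) _ _ _ h1
  have e : mk (invRev q) = k⁻¹ * mk (p ++ [y]) := by
    have hke : k = mk (p ++ [y]) * mk q := by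
      rw [mul_mk, List.append_assoc, List.singleton_append, ← h, mk_toWord]
    rw [← inv_mk, hke]
    group
  rw [e, DC_cj_mul_left K _ _ (K.inv_mem hk)] at h2
  exact h2

/-- vertices on the path from `1` to `k ∈ K` are core vertices -/
theorem hull_next (K : Subgroup (FreeGroup α)) (hn : (D K).Nontrivial) (k : FreeGroup α)
    (hk : k ∈ K) (p q : List (α × Bool)) (y : α × Bool) (h : k.toWord = p ++ y :: q) :
    y ∈ D (cj K (mk p)) ∧ (D (cj K (mk p))).Nontrivial := by
  have h1 := DC_hull K hn k hk p q y h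
  refine ⟨h1, ?_⟩
  rcases List.eq_nil_or_concat' p with hp | ⟨p', w, hp⟩
  · rw [hp, ← one_eq_mk, cj_one]
    exact hn
  · have h2 : k.toWord = p' ++ w :: (y :: q) := by
      rw [h, hp, List.append_assoc, List.singleton_append]
    have h3 := hull_back K hn k hk p' (y :: q) w h2
    rw [← hp] at h3
    refine ⟨y, h1, nb w, h3, ?_⟩
    have hr : IsReduced (p ++ y :: q) := by
      rw [← h]
      exact isReduced_toWord
    exact DC_append_ne hr (a := w) (b := y) (by rw [hp, List.getLast?_concat]; rfl) rfl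

/-- a direction which does not go back is traversed by an element of `K` -/
theorem hull_edge (K : Subgroup (FreeGroup α)) (g : FreeGroup α) (y : α × Bool)
    (hy : y ∈ D (cj K g)) (hg : IsReduced (g.toWord ++ [y])) :
    ∃ k ∈ K, (g.toWord ++ [y]) <+: k.toWord := by
  have hS := DC_transfer (g.toWord ++ [y]) ((cj K g : Set (FreeGroup α)) ∩ U y) hy g g⁻¹ (by
    rintro x ⟨_, hx⟩
    obtain ⟨t, ht⟩ := DC_mem_U.1 hx
    have hr2 : IsReduced (g.toWord ++ x.toWord) := by
      refine DC_append isReduced_toWord isReduced_toWord ?_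
      intro a ha b hb
      rw [ht] at hb
      exact DC_append_ne hg ha hb
    have e : g * x = mk (g.toWord ++ x.toWord) := by
      rw [← mul_mk, mk_toWord, mk_toWord]
    rw [e, DC_toWord_mk hr2, ht]
    exact ⟨t, by simp⟩)
  obtain ⟨x, ⟨hx1, _⟩, hx2⟩ := hS.nonempty
  exact ⟨g * x * g⁻¹, (DC_mem_cj K g x).1 hx1, hx2⟩

/-! ## Unused letters -/

theorem DC_mem_Sm (s : α) (k : FreeGroup α) : k ∈ Sm s ↔ ∀ y ∈ k.toWord, y.1 ≠ s := by
  constructor
  · intro h
    induction h using Subgroup.closure_induction with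
    | mem x hx =>
      obtain ⟨b, hb, rfl⟩ := hx
      intro y hy
      rw [toWord_of, List.mem_singleton] at hy
      subst hy
      exact hb
    | one =>
      intro y hy
      rw [toWord_one] at hy
      exact absurd hy (by simp)
    | mul a b _ _ iha ihb =>
      intro y hy
      have := (toWord_mul_sublist a b).subset hy
      rw [List.mem_append] at this
      rcases this with h | h
      · exact iha y h
      · exact ihb y h
    | inv a _ iha =>
      intro y hy
      rw [toWord_inv] at hy
      simp only [invRev, List.mem_reverse, List.mem_map] at hy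
      obtain ⟨z, hz, rfl⟩ := hy
      exact iha z hz
  · intro h
    have key : ∀ L : List (α × Bool), (∀ y ∈ L, y.1 ≠ s) → mk L ∈ Sm s := by
      intro L
      induction L with
      | nil =>
        intro _
        rw [← one_eq_mk]
        exact (Sm s).one_mem
      | cons y L ih =>
        intro hL
        have e : mk (y :: L) = mk [y] * mk L := by
          rw [mul_mk, List.singleton_append]
        rw [e]
        refine (Sm s).mul_mem ?_ (ih fun z hz => hL z (List.mem_cons_of_mem _ hz))
        have hy : y.1 ≠ s := hL y List.mem_cons_self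
        have hof : of y.1 ∈ Sm s := Subgroup.subset_closure ⟨y.1, hy, rfl⟩
        obtain ⟨a, b⟩ := y
        cases b
        · have : mk [(a, false)] = (of a)⁻¹ := by
            simp [of, inv_mk, invRev]
          rw [this]
          exact (Sm s).inv_mem hof
        · exact hof
    have := key k.toWord h
    rwa [mk_toWord] at this

/-- if the letter `s` is not used by the core, `K ≤ ⟨b : b ≠ s⟩` -/
theorem unused (K : Subgroup (FreeGroup α)) (hn : (D K).Nontrivial) (s : α)
    (h : edg K (s, true) = ∅) : K ≤ Sm s := by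
  have key : ∀ k ∈ K, (s, true) ∉ k.toWord := by
    intro k hk hs
    obtain ⟨p, q, hpq⟩ := List.append_of_mem hs
    have h1 := hull_next K hn k hk p q (s, true) hpq
    have h2 : (((mk p)⁻¹ : FreeGroup α) : FreeGroup α ⧸ K) ∈ edg K (s, true) := by
      simp only [edg, Set.mem_setOf_eq]
      rw [Dv_coe, inv_inv]
      exact h1
    rw [h] at h2
    exact h2
  intro k hk
  rw [DC_mem_Sm]
  rintro ⟨a, b⟩ hy rfl
  cases b
  · apply key k⁻¹ (K.inv_mem hk)
    rw [toWord_inv]
    simp only [invRev, List.mem_reverse, List.mem_map]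
    exact ⟨_, hy, by simp⟩
  · exact key k hk hy

theorem unused' (K : Subgroup (FreeGroup α)) (hn : (D K).Nontrivial) (s : α) (b : Bool)
    (h : K ≤ Sm s) : edg K (s, b) = ∅ := by
  rw [Set.eq_empty_iff_forall_notMem]
  rintro v ⟨hv1, hv2⟩
  obtain ⟨g', rfl⟩ := QuotientGroup.mk_surjective v
  rw [Dv_coe] at hv1 hv2
  set g := g'⁻¹ with hg
  have key : ∀ y : α × Bool, y ∈ D (cj K g) → IsReduced (g.toWord ++ [y]) →
      ∀ z ∈ g.toWord ++ [y], z.1 ≠ s := by
    intro y hy hr z hz
    obtain ⟨k, hk, hpre⟩ := hull_edge K g y hy hr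
    exact (DC_mem_Sm s k).1 (h hk) z (hpre.subset hz)
  by_cases hr : IsReduced (g.toWord ++ [(s, b)])
  · exact key _ hv1 hr (s, b) (by simp) rfl
  · have hlast : (nb (s, b)) ∈ g.toWord.getLast? := by
      by_contra hcon
      apply hr
      refine DC_append isReduced_toWord IsReduced.singleton ?_
      intro a ha c hc
      simp only [List.head?_cons, Option.mem_def, Option.some.injEq] at hc
      rw [← hc]
      intro h2
      apply hcon
      rw [h2, DC_nb_nb]
      exact ha
    obtain ⟨y', hy', hne⟩ := DC_avoid hv2 (s, b)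
    have hr' : IsReduced (g.toWord ++ [y']) := by
      refine DC_append isReduced_toWord IsReduced.singleton ?_
      intro a ha c hc
      simp only [List.head?_cons, Option.mem_def, Option.some.injEq] at hc
      rw [← hc]
      have : a = nb (s, b) := by
        rw [Option.mem_def] at ha hlast
        rw [ha] at hlast
        injection hlast
      rw [this, DC_nb_nb]
      exact hne
    have hmem : nb (s, b) ∈ g.toWord := List.mem_of_mem_getLast? hlast
    exact key y' hy' hr' (nb (s, b)) (List.mem_append_left _ hmem) rfl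

end Letters

end Pool.Agent.helper22.EC
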